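import Mathlib

namespace Pool.Agent.W718.OneD

set_option linter.unusedSectionVars false
set_option linter.unusedSimpArgs false
set_option linter.unusedVariables false

/-- Generators: `x`, `y`, `z` (first component `0`, `1`, `2`) and their inverses. -/
abbrev Gen := Fin 3 × Bool

/-- The inverse generator. -/
def gi (s : Gen) : Gen := (s.1, !s.2)

theorem gi_gi (s : Gen) : gi (gi s) = s := by
  simp [gi]

/-- The sign. -/
def sg (R : Type*) [CommRing R] (b : Bool) : R := if b then 1 else -1

theorem sg_not (R : Type*) [CommRing R] (b : Bool) : sg R (!b) = - sg R b := by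
  cases b <;> simp [sg]

/-- Left multiplication by a generator. -/
def act {R : Type*} [CommRing R] (s : Gen) (p : R × R × R) : R × R × R :=
  if s.1 = 0 then (p.1 + sg R s.2, p.2.1, p.2.2 + sg R s.2 * p.2.1)
  else if s.1 = 1 then (p.1, p.2.1 + sg R s.2, p.2.2)
  else (p.1, p.2.1, p.2.2 + sg R s.2)

theorem act_gi {R : Type*} [CommRing R] (s : Gen) (p : R × R × R) : act s (act (gi s) p) = p := by
  obtain ⟨i, b⟩ := s
  obtain ⟨a, c, d⟩ := p
  unfold act gi
  simp only [sg_not]
  split_ifs <;> ext <;> simp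

theorem gi_act {R : Type*} [CommRing R] (s : Gen) (p : R × R × R) : act (gi s) (act s p) = p := by
  have := act_gi (gi s) p
  rwa [gi_gi] at this

/-- Reduction of triples. -/
def red (m : ℕ) (p : ℤ × ℤ × ℤ) : ZMod m × ZMod m × ZMod m := (p.1, p.2.1, p.2.2)

theorem red_act (m : ℕ) (s : Gen) (p : ℤ × ℤ × ℤ) : red m (act s p) = act s (red m p) := by
  obtain ⟨i, b⟩ := s
  unfold red act
  cases b <;> split_ifs <;> simp [sg]

theorem red_surj (m : ℕ) (u : ZMod m × ZMod m × ZMod m) : ∃ p, red m p = u := by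
  obtain ⟨a, ha⟩ := ZMod.intCast_surjective u.1
  obtain ⟨b, hb⟩ := ZMod.intCast_surjective u.2.1
  obtain ⟨c, hc⟩ := ZMod.intCast_surjective u.2.2
  exact ⟨(a, b, c), by unfold red; rw [ha, hb, hc]⟩

theorem red_eq (m : ℕ) (p q : ℤ × ℤ × ℤ) :
    red m p = red m q ↔ (m : ℤ) ∣ q.1 - p.1 ∧ (m : ℤ) ∣ q.2.1 - p.2.1 ∧ (m : ℤ) ∣ q.2.2 - p.2.2 := by
  unfold red
  rw [Prod.mk.injEq, Prod.mk.injEq, ZMod.intCast_eq_intCast_iff_dvd_sub,
    ZMod.intCast_eq_intCast_iff_dvd_sub, ZMod.intCast_eq_intCast_iff_dvd_sub]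

/-- Relative position of `h` with respect to the tile `g`. -/
def rel (n : ℤ) (h g : ℤ × ℤ × ℤ) : ℤ × ℤ × ℤ :=
  (h.1 - n * g.1, h.2.1 - n * g.2.1, h.2.2 - n * n * g.2.2 - n * g.2.1 * (h.1 - n * g.1))

theorem rel_act (n : ℤ) (s : Gen) (h g : ℤ × ℤ × ℤ) : rel n (act s h) g = act s (rel n h g) := by
  obtain ⟨i, b⟩ := s
  unfold rel act
  split_ifs <;> ext <;> simp <;> ring

/-- Effect on the relative position of a move of the tile. -/
def shiftR (n : ℤ) (s : Gen) (w : ℤ × ℤ × ℤ) : ℤ × ℤ × ℤ :=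
  if s.1 = 0 then (w.1 - n * sg ℤ s.2, w.2.1, w.2.2)
  else if s.1 = 1 then (w.1, w.2.1 - n * sg ℤ s.2, w.2.2 - n * sg ℤ s.2 * w.1)
  else (w.1, w.2.1, w.2.2 - n * n * sg ℤ s.2)

theorem rel_shiftR (n : ℤ) (s : Gen) (h g : ℤ × ℤ × ℤ) :
    rel n h (act s g) = shiftR n s (rel n h g) := by
  obtain ⟨i, b⟩ := s
  unfold rel act shiftR
  split_ifs <;> ext <;> simp <;> ring

/-- The gauge. -/
def NN (n : ℤ) (w : ℤ × ℤ × ℤ) : ℤ := n * |w.1| + n * |w.2.1| + |w.2.2|

theorem abs_sg (b : Bool) : |sg ℤ b| = 1 := by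
  cases b <;> simp [sg]

section
variable {n : ℤ} (hn : 0 < n)
include hn

theorem NN_nonneg (w : ℤ × ℤ × ℤ) : 0 ≤ NN n w := by
  unfold NN
  positivity

theorem mul_b_le (w : ℤ × ℤ × ℤ) : n * |w.2.1| ≤ NN n w := by
  unfold NN
  have h1 : 0 ≤ n * |w.1| := by positivity
  have h2 : 0 ≤ |w.2.2| := abs_nonneg _
  linarith

theorem mul_a_le (w : ℤ × ℤ × ℤ) : n * |w.1| ≤ NN n w := by
  unfold NN
  have h1 : 0 ≤ n * |w.2.1| := by positivity
  have h2 : 0 ≤ |w.2.2| := abs_nonneg _
  linarith

theorem c_le (w : ℤ × ℤ × ℤ) : |w.2.2| ≤ NN n w := by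
  unfold NN
  have h1 : 0 ≤ n * |w.2.1| := by positivity
  have h2 : 0 ≤ n * |w.1| := by positivity
  linarith

theorem NN_act_le (s : Gen) (w : ℤ × ℤ × ℤ) : NN n (act s w) ≤ NN n w + n + |w.2.1| := by
  obtain ⟨i, b⟩ := s
  have hs := abs_sg b
  unfold NN act
  have h0 : 0 ≤ |w.2.1| := abs_nonneg _
  split_ifs
  · have h1 : |w.1 + sg ℤ b| ≤ |w.1| + 1 := by
      have := abs_add_le w.1 (sg ℤ b)
      rwa [hs] at this
    have h2 : |w.2.2 + sg ℤ b * w.2.1| ≤ |w.2.2| + |w.2.1| := by
      have := abs_add_le w.2.2 (sg ℤ b * w.2.1)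
      rwa [abs_mul, hs, one_mul] at this
    have h3 : n * |w.1 + sg ℤ b| ≤ n * (|w.1| + 1) := mul_le_mul_of_nonneg_left h1 hn.le
    simp only
    linarith
  · have h1 : |w.2.1 + sg ℤ b| ≤ |w.2.1| + 1 := by
      have := abs_add_le w.2.1 (sg ℤ b)
      rwa [hs] at this
    have h3 : n * |w.2.1 + sg ℤ b| ≤ n * (|w.2.1| + 1) := mul_le_mul_of_nonneg_left h1 hn.le
    simp only
    linarith
  · have h1 : |w.2.2 + sg ℤ b| ≤ |w.2.2| + 1 := by
      have := abs_add_le w.2.2 (sg ℤ b)
      rwa [hs] at this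
    simp only
    have : 1 ≤ n := hn
    linarith

theorem NN_shiftR_le (s : Gen) (w : ℤ × ℤ × ℤ) :
    NN n (shiftR n s w) ≤ NN n w + n * n + n * |w.1| := by
  obtain ⟨i, b⟩ := s
  have hs := abs_sg b
  have hn' : |n| = n := abs_of_pos hn
  unfold NN shiftR
  have h0 : 0 ≤ n * |w.1| := by positivity
  split_ifs
  · have h1 : |w.1 - n * sg ℤ b| ≤ |w.1| + n := by
      have := abs_sub w.1 (n * sg ℤ b)
      rwa [abs_mul, hs, mul_one, hn'] at this
    have h3 : n * |w.1 - n * sg ℤ b| ≤ n * (|w.1| + n) := mul_le_mul_of_nonneg_left h1 hn.le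
    simp only
    linarith
  · have h1 : |w.2.1 - n * sg ℤ b| ≤ |w.2.1| + n := by
      have := abs_sub w.2.1 (n * sg ℤ b)
      rwa [abs_mul, hs, mul_one, hn'] at this
    have h2 : |w.2.2 - n * sg ℤ b * w.1| ≤ |w.2.2| + n * |w.1| := by
      have := abs_sub w.2.2 (n * sg ℤ b * w.1)
      rwa [abs_mul, abs_mul, hs, mul_one, hn'] at this
    have h3 : n * |w.2.1 - n * sg ℤ b| ≤ n * (|w.2.1| + n) := mul_le_mul_of_nonneg_left h1 hn.le
    simp only
    linarith
  · have h1 : |w.2.2 - n * n * sg ℤ b| ≤ |w.2.2| + n * n := by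
      have := abs_sub w.2.2 (n * n * sg ℤ b)
      rwa [abs_mul, abs_mul, hs, mul_one, hn'] at this
    simp only
    linarith

/-- One step changes the gauge by at most `4 n` inside the tile. -/
theorem NN_step (s : Gen) (w : ℤ × ℤ × ℤ) (h : NN n w < 3 * (n * n)) :
    NN n (act s w) < NN n w + 4 * n := by
  have h1 := NN_act_le hn s w
  have h2 := mul_b_le hn w
  have h3 : |w.2.1| < 3 * n := by
    by_contra hc
    push Not at hc
    have : n * (3 * n) ≤ n * |w.2.1| := mul_le_mul_of_nonneg_left hc hn.le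
    nlinarith
  linarith

/-- Near the boundary of a tile some neighbouring tile is much deeper. -/
theorem supply (w : ℤ × ℤ × ℤ) (h32 : 32 ≤ n) (h : 3 * (n * n) - 4 * n ≤ NN n w) :
    ∃ s : Gen, 4 * NN n (shiftR n s w) ≤ 4 * NN n w - n * n := by
  obtain ⟨a, b, c⟩ := w
  have hnn : 0 ≤ n * n := by positivity
  by_cases hc : n * n ≤ |c|
  · -- move along the centre
    rcases le_total 0 c with h0 | h0
    · refine ⟨(2, true), ?_⟩
      unfold NN shiftR at *
      simp only [sg, if_true, mul_one] at *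
      have e1 : |c| = c := abs_of_nonneg h0
      rw [e1] at hc
      have e2 : |c - n * n| = c - n * n := abs_of_nonneg (by linarith)
      simp [e1, e2]
      linarith
    · refine ⟨(2, false), ?_⟩
      unfold NN shiftR at *
      simp only [sg, if_true, mul_one] at *
      have e1 : |c| = -c := abs_of_nonpos h0
      rw [e1] at hc
      have e2 : |c + n * n| = -(c + n * n) := abs_of_nonpos (by linarith)
      simp [e1, e2]
      linarith
  · push Not at hc
    by_cases ha : 3 * n ≤ 4 * |a|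
    · rcases le_total 0 a with h0 | h0
      · refine ⟨(0, true), ?_⟩
        unfold NN shiftR at *
        have e1 : |a| = a := abs_of_nonneg h0
        rw [e1] at ha
        have h1 : 2 * |a - n| ≤ 2 * a - n := by
          rcases abs_cases (a - n) with h2 | h2 <;> omega
        have h2 : n * (2 * |a - n|) ≤ n * (2 * a - n) := mul_le_mul_of_nonneg_left h1 hn.le
        simp [sg, e1]
        nlinarith
      · refine ⟨(0, false), ?_⟩
        unfold NN shiftR at *
        have e1 : |a| = -a := abs_of_nonpos h0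
        rw [e1] at ha
        have h1 : 2 * |a + n| ≤ 2 * (-a) - n := by
          rcases abs_cases (a + n) with h2 | h2 <;> omega
        have h2 : n * (2 * |a + n|) ≤ n * (2 * (-a) - n) := mul_le_mul_of_nonneg_left h1 hn.le
        simp [sg, e1]
        nlinarith
    · push Not at ha
      have hb : n ≤ |b| := by
        by_contra hb
        push Not at hb
        unfold NN at h
        simp only at h
        have h1 : n * |b| ≤ n * (n - 1) := mul_le_mul_of_nonneg_left (by omega) hn.le
        have h2 : n * (4 * |a|) ≤ n * (3 * n - 1) := mul_le_mul_of_nonneg_left (by omega) hn.le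
        nlinarith
      have h4 : n * (4 * |a|) ≤ n * (3 * n) := mul_le_mul_of_nonneg_left ha.le hn.le
      have hn' : |n| = n := abs_of_pos hn
      rcases le_total 0 b with h0 | h0
      · refine ⟨(1, true), ?_⟩
        unfold NN shiftR at *
        have e1 : |b| = b := abs_of_nonneg h0
        rw [e1] at hb
        have e2 : |b - n| = b - n := abs_of_nonneg (by linarith)
        have h5 : |c - n * a| ≤ |c| + n * |a| := by
          have := abs_sub c (n * a)
          rwa [abs_mul, hn'] at this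
        simp [sg, e1, e2]
        linarith
      · refine ⟨(1, false), ?_⟩
        unfold NN shiftR at *
        have e1 : |b| = -b := abs_of_nonpos h0
        rw [e1] at hb
        have e2 : |b + n| = -(b + n) := abs_of_nonpos (by linarith)
        have h5 : |c + n * a| ≤ |c| + n * |a| := by
          have := abs_add_le c (n * a)
          rwa [abs_mul, hn'] at this
        simp [sg, e1, e2]
        linarith

/-- Two tiles of the same colour near one point are equal. -/
theorem rel_unique (h g g' : ℤ × ℤ × ℤ) (h1 : NN n (rel n h g) < 8 * (n * n))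
    (h2 : NN n (rel n h g') < 8 * (n * n)) (hc : red 17 g = red 17 g') : g = g' := by
  rw [red_eq] at hc
  obtain ⟨A, B, C⟩ := h
  obtain ⟨a, b, c⟩ := g
  obtain ⟨a', b', c'⟩ := g'
  obtain ⟨hc1, hc2, hc3⟩ := hc
  simp only at hc1 hc2 hc3
  have key : ∀ u v : ℤ, n * |u| < 8 * (n * n) → n * |v| < 8 * (n * n) → |u - v| < 16 * n := by
    intro u v hu hv
    have hu' : |u| < 8 * n := by nlinarith
    have hv' : |v| < 8 * n := by nlinarith
    have := abs_sub u v
    linarith
  have ea : a = a' := by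
    have k := key _ _ ((mul_a_le hn _).trans_lt h1) ((mul_a_le hn _).trans_lt h2)
    unfold rel at k
    simp only at k
    rw [show A - n * a - (A - n * a') = n * (a' - a) by ring, abs_mul, abs_of_pos hn] at k
    have : |a' - a| < 16 := by nlinarith
    have h0 := Int.eq_zero_of_abs_lt_dvd hc1 (by norm_num; linarith)
    linarith
  have eb : b = b' := by
    have k := key _ _ ((mul_b_le hn _).trans_lt h1) ((mul_b_le hn _).trans_lt h2)
    unfold rel at k
    simp only at k
    rw [show B - n * b - (B - n * b') = n * (b' - b) by ring, abs_mul, abs_of_pos hn] at k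
    have : |b' - b| < 16 := by nlinarith
    have h0 := Int.eq_zero_of_abs_lt_dvd hc2 (by norm_num; linarith)
    linarith
  subst ea
  subst eb
  have ec : c = c' := by
    have k1 := (c_le hn _).trans_lt h1
    have k2 := (c_le hn _).trans_lt h2
    have k := abs_sub (rel n (A, B, C) (a, b, c)).2.2 (rel n (A, B, C) (a, b, c')).2.2
    unfold rel at k k1 k2
    simp only at k k1 k2
    rw [show C - n * n * c - n * b * (A - n * a) - (C - n * n * c' - n * b * (A - n * a))
      = (n * n) * (c' - c) by ring, abs_mul, abs_of_pos (by positivity : 0 < n * n)] at k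
    have : |c' - c| < 16 := by nlinarith
    have h0 := Int.eq_zero_of_abs_lt_dvd hc3 (by norm_num; linarith)
    linarith
  rw [ec]

end

end Pool.Agent.W718.OneD
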