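import Mathlib
import Pool.Agent.W718.OneD.Geo
import Pool.Agent.W718.Heis
import Pool.Agent.W718.Distort

namespace Pool.Agent.W718.OneD

set_option linter.unusedSectionVars false
set_option linter.unusedSimpArgs false
set_option linter.unusedVariables false

/-- The shift. -/
def shf {B : Type*} (ω : ℤ → B) : ℤ → B := fun n => ω (n + 1)

def shb {B : Type*} (ω : ℤ → B) : ℤ → B := fun n => ω (n - 1)

theorem shf_shb {B : Type*} (ω : ℤ → B) : shf (shb ω) = ω := by
  funext n
  simp [shf, shb]

theorem shb_shf {B : Type*} (ω : ℤ → B) : shb (shf ω) = ω := by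
  funext n
  simp [shf, shb]

section
variable {k : ℕ} (F : Gen → (ℤ → Fin k) → (ℤ → Fin k))

/-- The maps along a word. -/
def word : List Gen → (ℤ → Fin k) → (ℤ → Fin k)
  | [], ω => ω
  | s :: w, ω => word w (F s ω)

/-- The relations of the Heisenberg group at a point. -/
def RelAt (ω : ℤ → Fin k) : Prop :=
  (∀ s, F s (F (gi s) ω) = ω) ∧
  F (0, true) (F (1, false) (F (0, true) (F (1, true) ω))) =
    F (1, false) (F (0, true) (F (1, true) (F (0, true) ω))) ∧
  F (1, true) (F (0, false) (F (1, true) (F (0, true) ω))) =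
    F (0, false) (F (1, true) (F (0, true) (F (1, true) ω)))

/-- The points at which the relations hold for ever. -/
def YY : Set (ℤ → Fin k) := {ω | ∀ w : List Gen, RelAt F (word F w ω)}

variable {F}

theorem YY_F {ω : ℤ → Fin k} (h : ω ∈ YY F) (s : Gen) : F s ω ∈ YY F := fun w => h (s :: w)

variable (hF : ∀ s, Continuous (F s)) (hs : ∀ s ω, F s (shf ω) = shf (F s ω))

include hs in
theorem hs' (s : Gen) (ω : ℤ → Fin k) : F s (shb ω) = shb (F s ω) := by
  have := hs s (shb ω)
  rw [shf_shb] at this
  rw [this, shb_shf]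

include hs in
theorem word_shf (w : List Gen) : ∀ ω, word F w (shf ω) = shf (word F w ω) := by
  induction w with
  | nil => intro ω; rfl
  | cons s w ih =>
    intro ω
    show word F w (F s (shf ω)) = shf (word F w (F s ω))
    rw [hs, ih]

include hs in
theorem RelAt_shf {ω : ℤ → Fin k} (h : RelAt F ω) : RelAt F (shf ω) := by
  obtain ⟨h1, h2, h3⟩ := h
  refine ⟨fun s => ?_, ?_, ?_⟩
  · rw [hs, hs, h1]
  · simp only [hs, h2]
  · simp only [hs, h3]

include hs in
theorem YY_shf {ω : ℤ → Fin k} (h : ω ∈ YY F) : shf ω ∈ YY F := by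
  intro w
  rw [word_shf hs]
  exact RelAt_shf hs (h w)

include hs in
theorem word_shb (w : List Gen) : ∀ ω, word F w (shb ω) = shb (word F w ω) := by
  induction w with
  | nil => intro ω; rfl
  | cons s w ih =>
    intro ω
    show word F w (F s (shb ω)) = shb (word F w (F s ω))
    rw [hs' hs, ih]

include hs in
theorem RelAt_shb {ω : ℤ → Fin k} (h : RelAt F ω) : RelAt F (shb ω) := by
  obtain ⟨h1, h2, h3⟩ := h
  refine ⟨fun s => ?_, ?_, ?_⟩
  · rw [hs' hs, hs' hs, h1]
  · simp only [hs' hs, h2]
  · simp only [hs' hs, h3]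

include hs in
theorem YY_shb {ω : ℤ → Fin k} (h : ω ∈ YY F) : shb ω ∈ YY F := by
  intro w
  rw [word_shb hs]
  exact RelAt_shb hs (h w)

include hF in
theorem cont_word (w : List Gen) : Continuous (word F w) := by
  induction w with
  | nil => exact continuous_id
  | cons s w ih => exact ih.comp (hF s)

include hF in
theorem isClosed_RelAt : IsClosed {ω | RelAt F ω} := by
  have e : {ω | RelAt F ω} = (⋂ s, {ω | F s (F (gi s) ω) = ω}) ∩
      ({ω | F (0, true) (F (1, false) (F (0, true) (F (1, true) ω))) =
        F (1, false) (F (0, true) (F (1, true) (F (0, true) ω)))} ∩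
      {ω | F (1, true) (F (0, false) (F (1, true) (F (0, true) ω))) =
        F (0, false) (F (1, true) (F (0, true) (F (1, true) ω)))}) := by
    ext ω
    simp [RelAt]
  rw [e]
  refine (isClosed_iInter fun s => isClosed_eq ((hF _).comp (hF _)) continuous_id).inter
    ((isClosed_eq ?_ ?_).inter (isClosed_eq ?_ ?_)) <;>
  exact (hF _).comp ((hF _).comp ((hF _).comp (hF _)))

include hF in
theorem isClosed_YY : IsClosed (YY F) := by
  have e : YY F = ⋂ w : List Gen, (word F w) ⁻¹' {ω | RelAt F ω} := by
    ext ω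
    simp [YY]
  rw [e]
  exact isClosed_iInter fun w => (isClosed_RelAt hF).preimage (cont_word hF w)

/-- The homeomorphism given by a generator. -/
def homeo (s : Gen) : YY F ≃ₜ YY F where
  toFun ω := ⟨F s ω.1, YY_F ω.2 s⟩
  invFun ω := ⟨F (gi s) ω.1, YY_F ω.2 (gi s)⟩
  left_inv ω := by
    apply Subtype.ext
    have := (ω.2 []).1 (gi s)
    rw [gi_gi] at this
    exact this
  right_inv ω := by
    apply Subtype.ext
    exact (ω.2 []).1 s
  continuous_toFun := ((hF s).comp continuous_subtype_val).subtype_mk _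
  continuous_invFun := ((hF (gi s)).comp continuous_subtype_val).subtype_mk _

/-- The shift on the subshift. -/
def shY : YY F ≃ₜ YY F where
  toFun ω := ⟨shf ω.1, YY_shf hs ω.2⟩
  invFun ω := ⟨shb ω.1, YY_shb hs ω.2⟩
  left_inv ω := Subtype.ext (shb_shf _)
  right_inv ω := Subtype.ext (shf_shb _)
  continuous_toFun := by
    refine Continuous.subtype_mk ?_ _
    exact continuous_pi fun n => (continuous_apply (n + 1)).comp continuous_subtype_val
  continuous_invFun := by
    refine Continuous.subtype_mk ?_ _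
    exact continuous_pi fun n => (continuous_apply (n - 1)).comp continuous_subtype_val

/-- The automorphisms. -/
abbrev Autos : Subgroup (YY F ≃ₜ YY F) := Subgroup.centralizer {shY hs}

/-- The automorphism of a generator. -/
def aut (s : Gen) : Autos hs := ⟨homeo hF s, by
  rw [Subgroup.mem_centralizer_iff]
  intro h hh
  rw [Set.mem_singleton_iff] at hh
  subst hh
  apply Homeomorph.ext
  intro ω
  apply Subtype.ext
  show shf (F s ω.1) = F s (shf ω.1)
  rw [hs]⟩

theorem aut_apply (s : Gen) (ω : YY F) : (((aut hF hs s).1 : YY F ≃ₜ YY F) ω).1 = F s ω.1 := rfl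

theorem aut_inv (s : Gen) : (aut hF hs s)⁻¹ = aut hF hs (gi s) := by
  apply Subtype.ext
  apply Homeomorph.ext
  intro ω
  rfl

theorem rel1 : aut hF hs (0, true) * ((aut hF hs (1, true))⁻¹ * aut hF hs (0, true) *
    aut hF hs (1, true)) = ((aut hF hs (1, true))⁻¹ * aut hF hs (0, true) *
    aut hF hs (1, true)) * aut hF hs (0, true) := by
  rw [aut_inv]
  apply Subtype.ext
  apply Homeomorph.ext
  intro ω
  apply Subtype.ext
  exact (ω.2 []).2.1

theorem rel2 : aut hF hs (1, true) * ((aut hF hs (0, true))⁻¹ * aut hF hs (1, true) *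
    aut hF hs (0, true)) = ((aut hF hs (0, true))⁻¹ * aut hF hs (1, true) *
    aut hF hs (0, true)) * aut hF hs (1, true) := by
  rw [aut_inv]
  apply Subtype.ext
  apply Homeomorph.ext
  intro ω
  apply Subtype.ext
  exact (ω.2 []).2.2

/-- The homomorphism from the Heisenberg group. -/
def hom : Heis.Heisenberg →* Autos hs := Heis.rho (rel1 hF hs) (rel2 hF hs)

end

end Pool.Agent.W718.OneD
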