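import Mathlib
import Pool.Agent.W718.OneD.Emb

namespace Pool.Agent.W718.OneD

set_option linter.unusedSectionVars false
set_option linter.unusedSimpArgs false
set_option linter.unusedVariables false

open Distort in
theorem heis_inj {G : Type*} [Group G] (f : Heis.Heisenberg →* G)
    (h : ∀ c : ℤ, 0 < c → f (mk 0 0 c) ≠ 1) : Function.Injective f := by
  have h' : ∀ c : ℤ, f (mk 0 0 c) = 1 → c = 0 := by
    intro c hc
    by_contra h0
    rcases lt_or_gt_of_ne h0 with h1 | h1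
    · apply h (-c) (by omega)
      have e : mk 0 0 (-c) = (mk 0 0 c)⁻¹ := by
        rw [mk_inv]
        congr 1
        ring
      rw [e, map_inv, hc, inv_one]
    · exact h c h1 hc
  rw [injective_iff_map_eq_one]
  intro m hm
  have em : m = mk (m.1 0 1) (m.1 1 2) (m.1 0 2) := ext_heis _ _ rfl rfl rfl
  generalize m.1 0 1 = a at em
  generalize m.1 1 2 = b at em
  generalize m.1 0 2 = c at em
  subst em
  have ha : a = 0 := by
    apply h'
    have e : mk 0 0 a = mk a b c * mk 0 1 0 * (mk a b c)⁻¹ * (mk 0 1 0)⁻¹ := by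
      rw [mk_inv, mk_inv, mk_mul, mk_mul, mk_mul]
      congr 1 <;> ring
    rw [e, map_mul, map_mul, map_mul, map_inv, map_inv, hm]
    simp
  have hb : b = 0 := by
    apply h'
    have e : mk 0 0 b = mk 1 0 0 * mk a b c * (mk 1 0 0)⁻¹ * (mk a b c)⁻¹ := by
      rw [mk_inv, mk_inv, mk_mul, mk_mul, mk_mul]
      congr 1 <;> ring
    rw [e, map_mul, map_mul, map_mul, map_inv, map_inv, hm]
    simp
  subst ha
  subst hb
  rw [h' c hm, mk_zero]

section
variable {k : ℕ} {F : Gen → (ℤ → Fin k) → (ℤ → Fin k)}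
  (hF : ∀ s, Continuous (F s)) (hs : ∀ s ω, F s (shf ω) = shf (F s ω))
  {ι : Type} (pt : ι → ℤ × ℤ × ℤ → (ℤ → Fin k))
  (hpt : ∀ i s g, F s (pt i g) = pt i (act s g))

include hpt in
theorem pt_word (i : ι) (w : List Gen) : ∀ g, ∃ g', word F w (pt i g) = pt i g' := by
  induction w with
  | nil => intro g; exact ⟨g, rfl⟩
  | cons s w ih =>
    intro g
    obtain ⟨g', hg'⟩ := ih (act s g)
    refine ⟨g', ?_⟩
    show word F w (F s (pt i g)) = _
    rw [hpt, hg']

include hpt in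
theorem pt_rel (i : ι) (g : ℤ × ℤ × ℤ) : RelAt F (pt i g) := by
  obtain ⟨a, b, c⟩ := g
  refine ⟨fun s => ?_, ?_, ?_⟩
  · rw [hpt, hpt, act_gi]
  · simp only [hpt]
    congr 1
    unfold act
    ext <;> simp [sg] <;> ring
  · simp only [hpt]
    congr 1
    unfold act
    ext <;> simp [sg]
    ring

include hpt in
theorem pt_mem (i : ι) (g : ℤ × ℤ × ℤ) : pt i g ∈ YY F := by
  intro w
  obtain ⟨g', hg'⟩ := pt_word pt hpt i w g
  rw [hg']
  exact pt_rel pt hpt i g'

/-- The central generator. -/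
def zz : Autos hs := Heis.Z (aut hF hs (0, true)) (aut hF hs (1, true))

theorem zz_apply (ω : YY F) : (((zz hF hs).1 : YY F ≃ₜ YY F) ω).1 =
    F (0, false) (F (1, false) (F (0, true) (F (1, true) ω.1))) := by
  unfold zz Heis.Z
  rw [aut_inv, aut_inv]
  rfl

include hpt in
theorem zz_pow (i : ι) (n : ℕ) : ∀ g : ℤ × ℤ × ℤ,
    ((((zz hF hs) ^ n).1 : YY F ≃ₜ YY F) ⟨pt i g, pt_mem pt hpt i g⟩).1 =
      pt i (g.1, g.2.1, g.2.2 + n) := by
  induction n with
  | zero =>
    intro g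
    simp only [pow_zero, Nat.cast_zero, add_zero]
    rfl
  | succ n ih =>
    intro g
    rw [pow_succ]
    have e : (((zz hF hs).1 : YY F ≃ₜ YY F) ⟨pt i g, pt_mem pt hpt i g⟩) =
        ⟨pt i (g.1, g.2.1, g.2.2 + 1), pt_mem pt hpt i _⟩ := by
      apply Subtype.ext
      rw [zz_apply]
      simp only [hpt]
      congr 1
      unfold act
      ext <;> simp [sg]
      ring
    show ((((zz hF hs) ^ n).1 : YY F ≃ₜ YY F) (((zz hF hs).1 : YY F ≃ₜ YY F) _)).1 = _
    rw [e, ih]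
    push_cast
    congr 3
    ring

include hpt in
theorem hom_inj (hsep : ∀ c : ℤ, 0 < c → ∃ i, ∃ g : ℤ × ℤ × ℤ,
    pt i (g.1, g.2.1, g.2.2 + c) ≠ pt i g) : Function.Injective (hom hF hs) := by
  apply heis_inj
  intro c hc h1
  obtain ⟨i, g, hg⟩ := hsep c hc
  obtain ⟨n, rfl⟩ := Int.eq_ofNat_of_zero_le hc.le
  apply hg
  have e : hom hF hs (Distort.mk 0 0 n) = (zz hF hs) ^ n := by
    unfold hom zz Heis.rho
    show (aut hF hs (1, true)) ^ (0 : ℤ) * (aut hF hs (0, true)) ^ (0 : ℤ) *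
      (Heis.Z (aut hF hs (0, true)) (aut hF hs (1, true))) ^ (n : ℤ) = _
    rw [zpow_zero, zpow_zero, one_mul, one_mul, zpow_natCast]
  rw [e] at h1
  rw [← zz_pow hF hs pt hpt i n g, h1]
  rfl

end

end Pool.Agent.W718.OneD
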