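import Mathlib
import Pool.Agent.W718.OneD.Geo

namespace Pool.Agent.W718.OneD

set_option linter.unusedSectionVars false
set_option linter.unusedSimpArgs false
set_option linter.unusedVariables false

abbrev H := ℤ × ℤ × ℤ

abbrev Color := ZMod 17 × ZMod 17 × ZMod 17

/-- The tile `g` of colour `c` is present at `h`. -/
def Present (n : ℤ) (c : Color) (h g : H) : Prop :=
  red 17 g = c ∧ NN n (rel n h g) < 3 * (n * n)

open Classical in
/-- The tile of colour `c` at `h`. -/
noncomputable def tile (n : ℤ) (c : Color) (h : H) : Option H :=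
  if hx : ∃ g, Present n c h g then some hx.choose else none

/-- The depth of `h` in the tile `g`. -/
def theta (n M : ℤ) (h g : H) : ℤ := min M ((3 * (n * n) - 1 - NN n (rel n h g)) / (4 * n))

noncomputable def stage (n M : ℤ) (c : Color) (h : H) : Option ℤ := (tile n c h).map (theta n M h)

section
variable {n : ℤ} (hn : 0 < n)
include hn

theorem present_unique {c : Color} {h g g' : H} (h1 : Present n c h g) (h2 : Present n c h g') :
    g = g' := by
  have hnn : 0 ≤ n * n := by positivity
  apply rel_unique hn h g g' _ _ (h1.1.trans h2.1.symm)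
  · have := h1.2; linarith
  · have := h2.2; linarith

theorem tile_eq_some {c : Color} {h g : H} : tile n c h = some g ↔ Present n c h g := by
  unfold tile
  constructor
  · intro e
    split_ifs at e with hx
    have e' := Option.some.inj e
    rw [← e']
    exact hx.choose_spec
  · intro hp
    have hx : ∃ g, Present n c h g := ⟨g, hp⟩
    rw [dif_pos hx]
    congr 1
    exact present_unique hn hx.choose_spec hp

theorem tile_eq_none {c : Color} {h : H} : tile n c h = none ↔ ∀ g, ¬ Present n c h g := by
  constructor
  · intro e g hp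
    rw [(tile_eq_some hn).2 hp] at e
    exact absurd e (by simp)
  · intro hp
    unfold tile
    rw [dif_neg (by push Not; exact hp)]

theorem theta_nonneg {M : ℤ} (hM : 0 ≤ M) {c : Color} {h g : H} (hp : Present n c h g) :
    0 ≤ theta n M h g := by
  unfold theta
  have := hp.2
  exact le_min hM (Int.ediv_nonneg (by linarith) (by linarith))

theorem theta_zero {M : ℤ} (hM : 0 ≤ M) {h g : H} (h1 : NN n (rel n h g) < 3 * (n * n))
    (h2 : 3 * (n * n) ≤ NN n (rel n h g) + 4 * n) : theta n M h g = 0 := by
  unfold theta
  rw [Int.ediv_eq_zero_of_lt (by linarith) (by linarith)]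
  exact min_eq_right hM

theorem theta_full {M : ℤ} {h g : H} (h1 : 4 * n * M ≤ 3 * (n * n) - 1 - NN n (rel n h g)) :
    theta n M h g = M := by
  unfold theta
  apply min_eq_left
  rw [Int.le_ediv_iff_mul_le (by linarith)]
  linarith

theorem theta_step {M : ℤ} {h h' g : H} (h1 : NN n (rel n h g) ≤ NN n (rel n h' g) + 4 * n) :
    theta n M h' g ≤ theta n M h g + 1 := by
  unfold theta
  have h2 : (3 * (n * n) - 1 - NN n (rel n h' g)) / (4 * n) ≤
      (3 * (n * n) - 1 - NN n (rel n h g)) / (4 * n) + 1 := by
    have h3 : (3 * (n * n) - 1 - NN n (rel n h g)) / (4 * n) + 1 =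
        (3 * (n * n) - 1 - NN n (rel n h g) + 4 * n) / (4 * n) := by
      rw [Int.add_ediv_of_dvd_right (dvd_refl _), Int.ediv_self (by linarith)]
    rw [h3]
    exact Int.ediv_le_ediv (by linarith) (by linarith)
  rcases min_cases M ((3 * (n * n) - 1 - NN n (rel n h g)) / (4 * n)) with h4 | h4
  · rw [h4.1]
    have := min_le_left M ((3 * (n * n) - 1 - NN n (rel n h' g)) / (4 * n))
    linarith
  · rw [h4.1]
    have := min_le_right M ((3 * (n * n) - 1 - NN n (rel n h' g)) / (4 * n))
    linarith

/-- The possible changes of the tile of a given colour under a generator. -/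
theorem trans {M : ℤ} (hM : 0 ≤ M) (hnM : 16 * M + 40 ≤ n) (c : Color) (s : Gen) (h : H) :
    (tile n c h = none ∧ tile n c (act s h) = none) ∨
    (∃ g, tile n c h = none ∧ tile n c (act s h) = some g ∧ theta n M (act s h) g = 0 ∧
      (∃ t : Gen, tile n (act (gi t) c) h = some (act (gi t) g) ∧
        theta n M h (act (gi t) g) = M) ∧
      (∀ (t : Gen) (g' : H), tile n (act (gi t) c) h = some g' → g' = act (gi t) g)) ∨
    (∃ g, tile n c h = some g ∧ theta n M h g = 0 ∧ tile n c (act s h) = none) ∨
    (∃ g, tile n c h = some g ∧ tile n c (act s h) = some g ∧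
      theta n M (act s h) g ≤ theta n M h g + 1 ∧ theta n M h g ≤ theta n M (act s h) g + 1) := by
  have hnn : 0 < n * n := by positivity
  have h40 : 40 ≤ n := by linarith
  have h40n : 40 * n ≤ n * n := mul_le_mul_of_nonneg_right h40 hn.le
  have hback : ∀ g, NN n (rel n (act s h) g) < 3 * (n * n) →
      NN n (rel n h g) < NN n (rel n (act s h) g) + 4 * n := by
    intro g hg
    have := NN_step hn (gi s) (rel n (act s h) g) hg
    rwa [← rel_act, gi_act] at this
  have hforw : ∀ g, NN n (rel n h g) < 3 * (n * n) →
      NN n (rel n (act s h) g) < NN n (rel n h g) + 4 * n := by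
    intro g hg
    have := NN_step hn s (rel n h g) hg
    rwa [← rel_act] at this
  rcases ho : tile n c h with _ | g
  · rcases hw : tile n c (act s h) with _ | g
    · left; simp
    · right; left
      have pg := (tile_eq_some hn).1 hw
      have ng := (tile_eq_none hn).1 ho g
      have ng' : 3 * (n * n) ≤ NN n (rel n h g) := by
        by_contra hc
        push Not at hc
        exact ng ⟨pg.1, hc⟩
      have hb := hback g pg.2
      have hub : NN n (rel n h g) < 3 * (n * n) + 4 * n := by
        have := pg.2
        linarith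
      refine ⟨g, rfl, rfl, theta_zero hn hM pg.2 (by linarith), ?_, ?_⟩
      · obtain ⟨s', hs'⟩ := supply hn (rel n h g) (by linarith) (by linarith)
        rw [← rel_shiftR] at hs'
        refine ⟨gi s', ?_, ?_⟩
        · rw [gi_gi, tile_eq_some hn]
          refine ⟨by rw [red_act, pg.1], ?_⟩
          nlinarith
        · rw [gi_gi]
          apply theta_full hn
          have h1 : n * (16 * M + 40) ≤ n * n := mul_le_mul_of_nonneg_left hnM hn.le
          nlinarith
      · intro t g' hg'
        have pg' := (tile_eq_some hn).1 hg'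
        apply rel_unique hn h g' (act (gi t) g)
        · have := pg'.2
          linarith
        · rw [rel_shiftR]
          have h1 := NN_shiftR_le hn (gi t) (rel n h g)
          have h2 := mul_a_le hn (rel n h g)
          linarith
        · rw [pg'.1, red_act, pg.1]
  · have pg := (tile_eq_some hn).1 ho
    rcases hw : tile n c (act s h) with _ | g'
    · right; right; left
      refine ⟨g, rfl, ?_, rfl⟩
      have ng := (tile_eq_none hn).1 hw g
      have ng' : 3 * (n * n) ≤ NN n (rel n (act s h) g) := by
        by_contra hc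
        push Not at hc
        exact ng ⟨pg.1, hc⟩
      have := hforw g pg.2
      exact theta_zero hn hM pg.2 (by linarith)
    · right; right; right
      have pg' := (tile_eq_some hn).1 hw
      have e : g = g' := by
        apply rel_unique hn (act s h) g g'
        · have h1 := hforw g pg.2
          have h2 := pg.2
          linarith
        · have := pg'.2
          linarith
        · rw [pg.1, pg'.1]
      subst e
      refine ⟨g, rfl, rfl, ?_, ?_⟩
      · exact theta_step hn (hback g pg'.2).le
      · exact theta_step hn (hforw g pg.2).le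

/-- Translating by a multiple of `17 n²`. -/
theorem rel_translate (Q : ℕ) (hQ : (Q : ℤ) = 17 * (n * n)) (h h' g : H)
    (e : red Q h = red Q h') : ∃ g', rel n h' g' = rel n h g ∧ red 17 g' = red 17 g := by
  rw [red_eq, hQ] at e
  obtain ⟨A, B, D⟩ := h
  obtain ⟨A', B', D'⟩ := h'
  obtain ⟨a, b, d⟩ := g
  obtain ⟨⟨k1, h1⟩, ⟨k2, h2⟩, ⟨k3, h3⟩⟩ := e
  simp only at h1 h2 h3
  refine ⟨(a + 17 * (n * k1), b + 17 * (n * k2), d + 17 * (k3 - k2 * (A - n * a))), ?_, ?_⟩
  · have e1 : A' = A + 17 * (n * n) * k1 := by linarith
    have e2 : B' = B + 17 * (n * n) * k2 := by linarith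
    have e3 : D' = D + 17 * (n * n) * k3 := by linarith
    subst e1
    subst e2
    subst e3
    unfold rel
    ext <;> simp <;> ring
  · symm
    rw [red_eq]
    refine ⟨⟨n * k1, ?_⟩, ⟨n * k2, ?_⟩, ⟨k3 - k2 * (A - n * a), ?_⟩⟩ <;> simp

theorem stage_congr (Q : ℕ) (hQ : (Q : ℤ) = 17 * (n * n)) (M : ℤ) (c : Color) (h h' : H)
    (e : red Q h = red Q h') : stage n M c h = stage n M c h' := by
  unfold stage
  rcases ho : tile n c h with _ | g
  · rcases hw : tile n c h' with _ | g'
    · rfl
    · exfalso
      have pg' := (tile_eq_some hn).1 hw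
      obtain ⟨g, hg1, hg2⟩ := rel_translate hn Q hQ h' h g' e.symm
      apply (tile_eq_none hn).1 ho g
      refine ⟨by rw [hg2, pg'.1], ?_⟩
      rw [hg1]
      exact pg'.2
  · have pg := (tile_eq_some hn).1 ho
    obtain ⟨g', hg1, hg2⟩ := rel_translate hn Q hQ h h' g e
    have pg' : Present n c h' g' := by
      refine ⟨by rw [hg2, pg.1], ?_⟩
      rw [hg1]
      exact pg.2
    rw [(tile_eq_some hn).2 pg']
    simp only [Option.map_some]
    unfold theta
    rw [hg1]

end

end Pool.Agent.W718.OneD
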