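import Mathlib
import Pool.Agent.W718.OneD.Stage

namespace Pool.Agent.W718.OneD

/-- Roles of the registers. -/
inductive Role
  | St | Cv | Lat (e : Fin 6) | LatV | Code (s : Gen) | Cand (s : Gen) (k : Fin 3) | Out (s : Gen)
  deriving DecidableEq, Fintype

/-- Kinds of updates. -/
inductive Kd
  | keep | blank | comp (k : Fin 3)
  deriving DecidableEq, Fintype

/-- Tracks; `none` is the phase track. -/
abbrev Trk := Option (Color × Role)

abbrev Ph (Q : ℕ) := ZMod Q × ZMod Q × ZMod Q

/-- Register contents. -/
abbrev Val (Q : ℕ) := Option (Ph Q ⊕ Kd)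

def off (o : Fin 3) : ℤ := (o : ℤ) - 1

/-- An update of the given kind. -/
def upd {Q : ℕ} (k : Kd) (f : Fin 3 → (Fin 6 → Val Q) → Val Q) (x : Val Q) (y : Fin 6 → Val Q) :
    Val Q :=
  match k with
  | .keep => x
  | .blank => none
  | .comp k => f k y

/-- A system of registers over the line, indexed by the Heisenberg group. -/
structure Sys (Q : ℕ) where
  D : ℤ → Trk → H → Val Q
  kd : Gen → ℤ → Trk → Ph Q → Kd
  src : ℤ → Trk → Fin 6 → Fin 3 × Trk
  fn : Gen → ℤ → Trk → Fin 3 → (Fin 6 → Val Q) → Val Q
  ph : ∀ i g, D i none g = some (Sum.inl (red Q g))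
  up : ∀ s i t g, D i t (act s g) = upd (kd s i t (red Q g)) (fn s i t) (D i t g)
    (fun e => D (i + off (src i t e).1) (src i t e).2 g)

/-- Moving a phase. -/
def movePh {Q : ℕ} (s : Gen) (x : Val Q) : Val Q :=
  match x with
  | some (Sum.inl v) => some (Sum.inl (act s v))
  | _ => none

/-- The trivial system: only the phase. -/
def Sys.triv (Q : ℕ) : Sys Q where
  D _ t g := match t with
    | none => some (Sum.inl (red Q g))
    | some _ => none
  kd _ _ t _ := match t with
    | none => .comp 0
    | some _ => .keep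
  src _ _ _ := (1, none)
  fn s _ _ _ y := movePh s (y 0)
  ph _ _ := rfl
  up s i t g := by
    rcases t with _ | t
    · simp [upd, movePh, red_act]
    · simp [upd]

end Pool.Agent.W718.OneD
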