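import Mathlib
import Pool.Agent.W718.OneD.Sys

namespace Pool.Agent.W718.OneD

set_option linter.unusedSectionVars false
set_option linter.unusedSimpArgs false
set_option linter.unusedVariables false

def MM (C : ℕ) : ℤ := 6 * C + 4
def nn (C : ℕ) : ℤ := 96 * C + 104

theorem nn_pos (C : ℕ) : 0 < nn C := by unfold nn; positivity
theorem MM_nonneg (C : ℕ) : 0 ≤ MM C := by unfold MM; positivity
theorem nn_MM (C : ℕ) : 16 * MM C + 40 ≤ nn C := by unfold nn MM; linarith

/-- The offset of the conveyor. -/
def kk (E t : ℤ) : ℤ := if t ≤ E + 1 then t - 1 else max (-E) (2 * E + 1 - t)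

theorem kk_lip (E a b : ℤ) (hE : 0 ≤ E) (h1 : a ≤ b + 1) (h2 : b ≤ a + 1) :
    kk E a ≤ kk E b + 1 ∧ kk E b ≤ kk E a + 1 := by
  unfold kk
  rcases max_cases (-E) (2 * E + 1 - a) with h3 | h3 <;>
  rcases max_cases (-E) (2 * E + 1 - b) with h4 | h4 <;>
  split_ifs <;> constructor <;> omega

theorem kk_latch (E o : ℤ) (h1 : -E ≤ o) (h2 : o ≤ E) : kk E (2 * E + 1 - o) = o := by
  unfold kk
  rcases max_cases (-E) (2 * E + 1 - (2 * E + 1 - o)) with h3 | h3 <;>
  split_ifs <;> omega

/-- Kind of a write-once register. -/
def once (m a b : ℤ) : Kd :=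
  if a < m ∧ m ≤ b then .comp 0 else if m ≤ a ∧ b < m then .blank else .keep

/-- Kind of the conveyor register. -/
def cvKind (E a b : ℤ) : Kd :=
  if a = b then .keep else if b = 0 then .blank else if a = 0 then .comp 2
  else if kk E b = kk E a + 1 then .comp 0 else if kk E b = kk E a - 1 then .comp 1 else .keep

def stKind (a b : Option ℤ) : Kd :=
  match a, b with
  | none, some _ => .comp 0
  | some _, none => .blank
  | _, _ => .keep

def gen6 : Fin 6 → Gen := ![(0, true), (0, false), (1, true), (1, false), (2, true), (2, false)]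

theorem gen6_surj (s : Gen) : ∃ e, gen6 e = s := by
  revert s
  decide

def cand6 : Fin 3 → Fin 6 := ![2, 3, 4]

def cidx : Fin 6 → Fin 3 := ![0, 0, 0, 1, 2, 0]

theorem cidx_cand (k : Fin 3) : cidx (cand6 k) = k := by
  revert k
  decide

def cv6 : Fin 3 → Fin 6 := ![0, 1, 2]

open Classical in
/-- Some defined value among six. -/
noncomputable def anySome {Q : ℕ} (y : Fin 6 → Val Q) : Val Q :=
  if h : ∃ e, y e ≠ none then y h.choose else none

theorem anySome_eq {Q : ℕ} (y : Fin 6 → Val Q) (x : Val Q) (h1 : ∀ e, y e = none ∨ y e = x)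
    (h2 : ∃ e, y e = x) : anySome y = x := by
  unfold anySome
  split_ifs with h
  · rcases h1 h.choose with h3 | h3
    · exact absurd h3 h.choose_spec
    · exact h3
  · push Not at h
    obtain ⟨e, he⟩ := h2
    rw [← he, h e]

def codeOf {Q : ℕ} (F : Ph Q → Kd) (x : Val Q) : Val Q :=
  match x with
  | some (Sum.inl v) => some (Sum.inr (F v))
  | _ => none

def runCode {Q : ℕ} (x : Val Q) (a : Val Q) (b : Fin 3 → Val Q) : Val Q :=
  match x with
  | some (Sum.inr .keep) => a
  | some (Sum.inr .blank) => none
  | some (Sum.inr (.comp k)) => b k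
  | _ => none

noncomputable def rep {Q : ℕ} (u : Ph Q) : H := (red_surj Q u).choose

theorem red_rep {Q : ℕ} (u : Ph Q) : red Q (rep u) = u := (red_surj Q u).choose_spec

section
variable {n M : ℤ} (hn : 0 < n) (hM : 0 ≤ M) (hnM : 16 * M + 40 ≤ n)

/-- Contents of a register depending on the tile. -/
noncomputable def atTile {Q : ℕ} (n M : ℤ) (c : Color) (F : H → ℤ → Val Q) (h : H) : Val Q :=
  match tile n c h with
  | none => none
  | some g => F g (theta n M h g)

theorem atTile_some {Q : ℕ} {c : Color} {F : H → ℤ → Val Q} {h g : H}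
    (e : tile n c h = some g) : atTile n M c F h = F g (theta n M h g) := by
  unfold atTile
  rw [e]

theorem atTile_none {Q : ℕ} {c : Color} {F : H → ℤ → Val Q} {h : H}
    (e : tile n c h = none) : atTile n M c F h = none := by
  unfold atTile
  rw [e]

theorem stage_some {c : Color} {h g : H}
    (e : tile n c h = some g) : stage n M c h = some (theta n M h g) := by
  unfold stage
  rw [e]
  rfl

theorem stage_none {c : Color} {h : H} (e : tile n c h = none) : stage n M c h = none := by
  unfold stage
  rw [e]
  rfl

include hn hM hnM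

theorem once_up {Q : ℕ} (c : Color) (s : Gen) (h : H) (m : ℤ) (hm : 2 ≤ m) (F : H → Val Q)
    (f : Fin 3 → (Fin 6 → Val Q) → Val Q) (y : Fin 6 → Val Q)
    (hcomp : ∀ g, tile n c h = some g → theta n M h g = m - 1 → f 0 y = F g) :
    atTile n M c (fun g t => if m ≤ t then F g else none) (act s h) =
      upd (once m ((stage n M c h).getD 0) ((stage n M c (act s h)).getD 0)) f
        (atTile n M c (fun g t => if m ≤ t then F g else none) h) y := by
  rcases trans hn hM hnM c s h with ⟨h1, h2⟩ | ⟨g, h1, h2, h3, -, -⟩ | ⟨g, h1, h3, h2⟩ |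
    ⟨g, h1, h2, h3, h4⟩
  · rw [atTile_none h1, atTile_none h2, stage_none h1, stage_none h2]
    have e : once m ((none : Option ℤ).getD 0) ((none : Option ℤ).getD 0) = .keep := by
      unfold once
      rw [if_neg, if_neg] <;> simp
    rw [e]
    rfl
  · rw [atTile_none h1, atTile_some h2, stage_none h1, stage_some h2, h3]
    have e : once m ((none : Option ℤ).getD 0) ((some 0 : Option ℤ).getD 0) = .keep := by
      unfold once
      rw [if_neg, if_neg] <;> simp
    rw [e, if_neg (by omega)]
    rfl
  · rw [atTile_some h1, atTile_none h2, stage_some h1, stage_none h2, h3]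
    have e : once m ((some 0 : Option ℤ).getD 0) ((none : Option ℤ).getD 0) = .keep := by
      unfold once
      rw [if_neg, if_neg] <;> simp
    rw [e, if_neg (by omega)]
    rfl
  · rw [atTile_some h1, atTile_some h2, stage_some h1, stage_some h2]
    simp only [Option.getD_some]
    unfold once
    by_cases k1 : theta n M h g < m
    · by_cases k2 : m ≤ theta n M (act s h) g
      · rw [if_pos k2, if_pos ⟨k1, k2⟩]
        exact (hcomp g h1 (by omega)).symm
      · rw [if_neg k2, if_neg (fun hc => k2 hc.2), if_neg (fun hc => by omega),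
          if_neg (by omega)]
        rfl
    · by_cases k2 : m ≤ theta n M (act s h) g
      · rw [if_pos k2, if_neg (fun hc => k1 hc.1), if_neg (fun hc => by omega),
          if_pos (by omega)]
        rfl
      · rw [if_neg k2, if_neg (fun hc => k1 hc.1), if_pos ⟨by omega, by omega⟩]
        rfl

theorem st_up {Q : ℕ} (c : Color) (s : Gen) (h : H) (F : H → Val Q)
    (f : Fin 3 → (Fin 6 → Val Q) → Val Q) (y : Fin 6 → Val Q)
    (hcomp : ∀ g,
      (∃ t : Gen, tile n (act (gi t) c) h = some (act (gi t) g) ∧
        theta n M h (act (gi t) g) = M) →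
      (∀ (t : Gen) (g' : H), tile n (act (gi t) c) h = some g' → g' = act (gi t) g) →
      f 0 y = F g) :
    atTile n M c (fun g t => F g) (act s h) =
      upd (stKind (stage n M c h) (stage n M c (act s h))) f
        (atTile n M c (fun g t => F g) h) y := by
  rcases trans hn hM hnM c s h with ⟨h1, h2⟩ | ⟨g, h1, h2, h3, h4, h5⟩ | ⟨g, h1, h3, h2⟩ |
    ⟨g, h1, h2, h3, h4⟩
  · rw [atTile_none h1, atTile_none h2, stage_none h1, stage_none h2]
    rfl
  · rw [atTile_none h1, atTile_some h2, stage_none h1, stage_some h2]
    exact (hcomp g h4 h5).symm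
  · rw [atTile_some h1, atTile_none h2, stage_some h1, stage_none h2]
    rfl
  · rw [atTile_some h1, atTile_some h2, stage_some h1, stage_some h2]
    rfl

theorem cv_up {Q : ℕ} (c : Color) (s : Gen) (h : H) (E : ℤ) (hE : 0 ≤ E) (F : H → ℤ → Val Q)
    (f : Fin 3 → (Fin 6 → Val Q) → Val Q) (y : Fin 6 → Val Q)
    (h0 : ∀ g, tile n c h = some g → f 2 y = F g 0)
    (hr : ∀ g, tile n c h = some g → 1 ≤ theta n M h g →
      f 0 y = F g (kk E (theta n M h g) + 1))
    (hl : ∀ g, tile n c h = some g → 1 ≤ theta n M h g →
      f 1 y = F g (kk E (theta n M h g) - 1)) :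
    atTile n M c (fun g t => if t = 0 then none else F g (kk E t)) (act s h) =
      upd (cvKind E ((stage n M c h).getD 0) ((stage n M c (act s h)).getD 0)) f
        (atTile n M c (fun g t => if t = 0 then none else F g (kk E t)) h) y := by
  rcases trans hn hM hnM c s h with ⟨h1, h2⟩ | ⟨g, h1, h2, h3, -, -⟩ | ⟨g, h1, h3, h2⟩ |
    ⟨g, h1, h2, h3, h4⟩
  · rw [atTile_none h1, atTile_none h2, stage_none h1, stage_none h2]
    rfl
  · rw [atTile_none h1, atTile_some h2, stage_none h1, stage_some h2, h3]
    rfl
  · rw [atTile_some h1, atTile_none h2, stage_some h1, stage_none h2, h3]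
    rfl
  · rw [atTile_some h1, atTile_some h2, stage_some h1, stage_some h2]
    simp only [Option.getD_some]
    have n1 := theta_nonneg hn hM ((tile_eq_some hn).1 h1)
    have n2 := theta_nonneg hn hM ((tile_eq_some hn).1 h2)
    have hlip := kk_lip E _ _ hE h3 h4
    have hr' := hr g h1
    have hl' := hl g h1
    have h0' := h0 g h1
    generalize theta n M h g = a at *
    generalize theta n M (act s h) g = b at *
    unfold cvKind
    by_cases k1 : a = b
    · rw [if_pos k1, k1]
      rfl
    · rw [if_neg k1]
      by_cases k2 : b = 0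
      · rw [if_pos k2, if_pos k2]
        rfl
      · rw [if_neg k2, if_neg k2]
        by_cases k3 : a = 0
        · rw [if_pos k3]
          have e : b = 1 := by omega
          have e' : kk E b = 0 := by
            rw [e]
            unfold kk
            rw [if_pos (by omega)]
            norm_num
          rw [e']
          exact h0'.symm
        · rw [if_neg k3, if_neg k3]
          by_cases k4 : kk E b = kk E a + 1
          · rw [if_pos k4, k4]
            exact (hr' (by omega)).symm
          · rw [if_neg k4]
            by_cases k5 : kk E b = kk E a - 1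
            · rw [if_pos k5, k5]
              exact (hl' (by omega)).symm
            · rw [if_neg k5]
              have e : kk E b = kk E a := by omega
              rw [e]
              rfl

end

end Pool.Agent.W718.OneD
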