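import Mathlib
import Pool.Agent.W718.OneD.Sim

namespace Pool.Agent.W718.OneD

set_option linter.unusedSectionVars false
set_option linter.unusedSimpArgs false
set_option linter.unusedVariables false

section
variable {Q C : ℕ} (p : Trk ≃ Fin C) (S : Sys Q)

theorem C_pos (p : Trk ≃ Fin C) : (0 : ℤ) < C := by
  have := (p none).2
  omega

def trk (p : Trk ≃ Fin C) (j : ℤ) : Trk := p.symm ⟨(j % C).toNat, by
  have h1 := C_pos p
  have h2 := Int.emod_nonneg j h1.ne'
  have h3 := Int.emod_lt_of_pos j h1
  omega⟩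

def pos (p : Trk ≃ Fin C) (i : ℤ) (t : Trk) : ℤ := i * C + ((p t : ℕ) : ℤ)

theorem cel_pos (i : ℤ) (t : Trk) : pos p i t / C = i := by
  unfold pos
  have h1 := C_pos p
  have h2 := (p t).2
  rw [Int.add_comm, Int.add_mul_ediv_right _ _ h1.ne',
    Int.ediv_eq_zero_of_lt (by positivity) (by exact_mod_cast h2), zero_add]

theorem trk_pos (i : ℤ) (t : Trk) : trk p (pos p i t) = t := by
  unfold trk
  have h1 := C_pos p
  have h2 := (p t).2
  have e : pos p i t % C = ((p t : ℕ) : ℤ) := by
    unfold pos
    rw [Int.add_comm, Int.add_mul_emod_self_right]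
    exact Int.emod_eq_of_lt (by positivity) (by exact_mod_cast h2)
  rw [Equiv.symm_apply_eq]
  apply Fin.ext
  show (pos p i t % C).toNat = _
  rw [e]
  simp

theorem pos_cel (j : ℤ) : pos p (j / C) (trk p j) = j := by
  unfold pos trk
  rw [Equiv.apply_symm_apply]
  have h1 := C_pos p
  have h2 := Int.emod_nonneg j h1.ne'
  show j / C * C + (((j % C).toNat : ℕ) : ℤ) = j
  rw [Int.toNat_of_nonneg h2]
  have := Int.emod_add_mul_ediv j C
  linarith

/-- The simulated register stored at the position `j`. -/
def itm (j : ℤ) (g : H) : Val Q := S.D (j / C) (trk p j) g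

def spos (j : ℤ) (e : Fin 6) : ℤ :=
  pos p (j / C + off (S.src (j / C) (trk p j) e).1) (S.src (j / C) (trk p j) e).2

def vpos (p : Trk ≃ Fin C) (j : ℤ) : ℤ := pos p (j / C) none

theorem itm_spos (j : ℤ) (e : Fin 6) (g : H) : itm p S (spos p S j e) g =
    S.D (j / C + off (S.src (j / C) (trk p j) e).1) (S.src (j / C) (trk p j) e).2 g := by
  unfold itm spos
  rw [cel_pos, trk_pos]

theorem itm_vpos (j : ℤ) (g : H) : itm p S (vpos p j) g = some (Sum.inl (red Q g)) := by
  unfold itm vpos
  rw [cel_pos, trk_pos, S.ph]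

theorem off_bd (o : Fin 3) : -1 ≤ off o ∧ off o ≤ 1 := by
  unfold off
  have := o.2
  omega

theorem pos_bd (j : ℤ) (o : Fin 3) (t : Trk) :
    -(2 * (C : ℤ)) ≤ pos p (j / C + off o) t - j ∧ pos p (j / C + off o) t - j ≤ 2 * C := by
  have h1 := C_pos p
  have h2 := Int.emod_nonneg j h1.ne'
  have h3 := Int.emod_lt_of_pos j h1
  have h4 := Int.emod_add_mul_ediv j C
  have h5 := (p t).2
  obtain ⟨h6, h7⟩ := off_bd o
  unfold pos
  have e : (j / C + off o) * C + ((p t : ℕ) : ℤ) - j =
      off o * C + ((p t : ℕ) : ℤ) - j % C := by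
    linear_combination h4
  rw [e]
  have h8 : off o * C ≤ 1 * C := mul_le_mul_of_nonneg_right h7 h1.le
  have h9 : -1 * C ≤ off o * C := mul_le_mul_of_nonneg_right h6 h1.le
  constructor <;> omega

theorem spos_bd (j : ℤ) (e : Fin 6) :
    -(2 * (C : ℤ)) ≤ spos p S j e - j ∧ spos p S j e - j ≤ 2 * C := by
  unfold spos
  exact pos_bd p j _ _

theorem vpos_bd (j : ℤ) : -(2 * (C : ℤ)) ≤ vpos p j - j ∧ vpos p j - j ≤ 2 * C := by
  have := pos_bd p j 1 none
  have e : off 1 = 0 := rfl
  rw [e, add_zero] at this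
  exact this

/-- The depth from which on a write-once register is present. -/
def thr (r : Role) (j : ℤ) : ℤ :=
  match r with
  | .St => 2
  | .Cv => 2
  | .Lat e => 2 * (2 * C) + 2 - (spos p S j e - j)
  | .LatV => 2 * (2 * C) + 2 - (vpos p j - j)
  | .Code _ => 3 * (2 * C) + 3
  | .Cand _ _ => 3 * (2 * C) + 3
  | .Out _ => 3 * (2 * C) + 4

theorem thr_two (r : Role) (j : ℤ) : 2 ≤ thr p S r j := by
  have h0 := C_pos p
  unfold thr
  rcases r with _ | _ | e | _ | _ | _ | _
  · simp
  · simp
  · have := spos_bd p S j e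
    simp only
    linarith
  · have := vpos_bd p j
    simp only
    linarith
  · simp only
    linarith
  · simp only
    linarith
  · simp only
    linarith

/-- The contents of a write-once register. -/
def content (r : Role) (j : ℤ) (g : H) : Val Q :=
  match r with
  | .St => none
  | .Cv => none
  | .Lat e => itm p S (spos p S j e) g
  | .LatV => itm p S (vpos p j) g
  | .Code s => some (Sum.inr (S.kd s (j / C) (trk p j) (red Q g)))
  | .Cand s k => S.fn s (j / C) (trk p j) k (fun e => itm p S (spos p S j e) g)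
  | .Out s => itm p S j (act s g)

noncomputable def newReg (r : Role) (c : Color) (j : ℤ) (h : H) : Val Q :=
  match r with
  | .St => atTile (nn C) (MM C) c (fun g _ => itm p S j g) h
  | .Cv => atTile (nn C) (MM C) c
      (fun g t => if t = 0 then none else itm p S (j + kk (2 * C) t) g) h
  | r => atTile (nn C) (MM C) c
      (fun g t => if thr p S r j ≤ t then content p S r j g else none) h

noncomputable def newD (j : ℤ) (t : Trk) (h : H) : Val Q :=
  match t with
  | none => some (Sum.inl (red Q h))
  | some (c, r) => newReg p S r c j h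

def newKind (r : Role) (j : ℤ) (a b : Option ℤ) : Kd :=
  match r with
  | .St => stKind a b
  | .Cv => cvKind (2 * C) (a.getD 0) (b.getD 0)
  | r => once (thr p S r j) (a.getD 0) (b.getD 0)

noncomputable def newKd (s : Gen) (j : ℤ) (t : Trk) (u : Ph Q) : Kd :=
  match t with
  | none => .comp 0
  | some (c, r) => newKind p S r j (stage (nn C) (MM C) c (rep u))
      (stage (nn C) (MM C) c (act s (rep u)))

def newSrc (t : Trk) (e : Fin 6) : Fin 3 × Trk :=
  match t with
  | none => (1, none)
  | some (c, .St) => (1, some (act (gi (gen6 e)) c, .Out (gen6 e)))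
  | some (c, .Cv) => if e = 0 then (2, some (c, .Cv)) else if e = 1 then (0, some (c, .Cv))
      else (1, some (c, .St))
  | some (c, .Lat _) => (1, some (c, .Cv))
  | some (c, .LatV) => (1, some (c, .Cv))
  | some (c, .Code _) => (1, some (c, .LatV))
  | some (c, .Cand _ _) => (1, some (c, .Lat e))
  | some (c, .Out s) => if e = 0 then (1, some (c, .Code s)) else if e = 1 then
      (1, some (c, .St)) else (1, some (c, .Cand s (cidx e)))

noncomputable def newFn (s : Gen) (j : ℤ) (t : Trk) (k : Fin 3) (y : Fin 6 → Val Q) : Val Q :=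
  match t with
  | none => movePh s (y 0)
  | some (_, .St) => anySome y
  | some (_, .Cv) => y (cv6 k)
  | some (_, .Lat _) => y 0
  | some (_, .LatV) => y 0
  | some (_, .Code s') => codeOf (fun v => S.kd s' (j / C) (trk p j) v) (y 0)
  | some (_, .Cand s' k') => S.fn s' (j / C) (trk p j) k' y
  | some (_, .Out _) => runCode (y 0) (y 1) (fun k => y (cand6 k))

theorem newKd_eq (hQ : (Q : ℤ) = 17 * (nn C * nn C)) (s : Gen) (j : ℤ) (c : Color) (r : Role)
    (h : H) : newKd p S s j (some (c, r)) (red Q h) =
      newKind p S r j (stage (nn C) (MM C) c h) (stage (nn C) (MM C) c (act s h)) := by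
  unfold newKd
  simp only
  rw [stage_congr (nn_pos C) Q hQ (MM C) c (rep (red Q h)) h (red_rep _),
    stage_congr (nn_pos C) Q hQ (MM C) c (act s (rep (red Q h))) (act s h)
      (by rw [red_act, red_act, red_rep])]

end

end Pool.Agent.W718.OneD
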