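import Mathlib
import Pool.Agent.W718.OneD.Next

namespace Pool.Agent.W718.OneD

set_option linter.unusedSectionVars false
set_option linter.unusedSimpArgs false
set_option linter.unusedVariables false

theorem off_one : off 1 = 0 := rfl
theorem off_two : off 2 = 1 := rfl
theorem off_zero : off 0 = -1 := rfl

section
variable {Q C : ℕ} (p : Trk ≃ Fin C) (S : Sys Q)

theorem newD_mid (j : ℤ) (c : Color) (r : Role) (h : H) :
    newD p S (j + off 1) (some (c, r)) h = newReg p S r c j h := by
  rw [off_one, add_zero]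
  rfl

theorem newD_some (j : ℤ) (c : Color) (r : Role) (h : H) :
    newD p S j (some (c, r)) h = newReg p S r c j h := rfl

theorem reg_St (c : Color) (j : ℤ) (h g : H) (e : tile (nn C) c h = some g) :
    newReg p S .St c j h = itm p S j g := by
  unfold newReg
  exact atTile_some e

theorem reg_Cv (c : Color) (j : ℤ) (h g : H) (e : tile (nn C) c h = some g) :
    newReg p S .Cv c j h = if theta (nn C) (MM C) h g = 0 then none else
      itm p S (j + kk (2 * C) (theta (nn C) (MM C) h g)) g := by
  unfold newReg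
  exact atTile_some e

theorem reg_Lat (k : Fin 6) (c : Color) (j : ℤ) (h g : H) (e : tile (nn C) c h = some g)
    (ht : thr p S (.Lat k) j ≤ theta (nn C) (MM C) h g) :
    newReg p S (.Lat k) c j h = itm p S (spos p S j k) g := by
  unfold newReg
  simp only
  rw [atTile_some e, if_pos ht]
  rfl

theorem reg_LatV (c : Color) (j : ℤ) (h g : H) (e : tile (nn C) c h = some g)
    (ht : thr p S .LatV j ≤ theta (nn C) (MM C) h g) :
    newReg p S .LatV c j h = itm p S (vpos p j) g := by
  unfold newReg
  simp only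
  rw [atTile_some e, if_pos ht]
  rfl

theorem reg_Code (s : Gen) (c : Color) (j : ℤ) (h g : H) (e : tile (nn C) c h = some g)
    (ht : thr p S (.Code s) j ≤ theta (nn C) (MM C) h g) :
    newReg p S (.Code s) c j h = content p S (.Code s) j g := by
  unfold newReg
  simp only
  rw [atTile_some e, if_pos ht]

theorem reg_Cand (s : Gen) (k : Fin 3) (c : Color) (j : ℤ) (h g : H)
    (e : tile (nn C) c h = some g)
    (ht : thr p S (.Cand s k) j ≤ theta (nn C) (MM C) h g) :
    newReg p S (.Cand s k) c j h = content p S (.Cand s k) j g := by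
  unfold newReg
  simp only
  rw [atTile_some e, if_pos ht]

theorem reg_Out (s : Gen) (c : Color) (j : ℤ) (h g : H) (e : tile (nn C) c h = some g) :
    newReg p S (.Out s) c j h = if thr p S (.Out s) j ≤ theta (nn C) (MM C) h g then
      itm p S j (act s g) else none := by
  unfold newReg
  simp only
  rw [atTile_some e]
  rfl

theorem reg_none (r : Role) (c : Color) (j : ℤ) (h : H) (e : tile (nn C) c h = none) :
    newReg p S r c j h = none := by
  unfold newReg
  rcases r with _ | _ | _ | _ | _ | _ | _ <;> exact atTile_none e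

/-- The latch values. -/
theorem latch_read (c : Color) (j : ℤ) (h g : H) (o : ℤ) (h1 : -(2 * (C : ℤ)) ≤ o)
    (h2 : o ≤ 2 * C) (e : tile (nn C) c h = some g)
    (ht : theta (nn C) (MM C) h g = 2 * (2 * C) + 2 - o - 1) :
    newReg p S .Cv c j h = itm p S (j + o) g := by
  rw [reg_Cv p S c j h g e, ht, show (2 * (2 * (C : ℤ)) + 2 - o - 1) = 2 * (2 * C) + 1 - o by ring,
    kk_latch _ _ h1 h2, if_neg]
  have := C_pos p
  omega

theorem out_run (s : Gen) (j : ℤ) (g : H) :
    runCode (some (Sum.inr (S.kd s (j / C) (trk p j) (red Q g)))) (itm p S j g)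
      (fun k => S.fn s (j / C) (trk p j) k (fun e => itm p S (spos p S j e) g)) =
      itm p S j (act s g) := by
  have e1 : itm p S j (act s g) = _ := S.up s (j / C) (trk p j) g
  rw [e1]
  rcases S.kd s (j / C) (trk p j) (red Q g) with _ | _ | k
  · rfl
  · rfl
  · simp only [runCode, upd, itm_spos]

theorem newFn_St (s : Gen) (j : ℤ) (c : Color) (i : Fin 3) (y : Fin 6 → Val Q) :
    newFn p S s j (some (c, .St)) i y = anySome y := rfl
theorem newFn_Cv (s : Gen) (j : ℤ) (c : Color) (i : Fin 3) (y : Fin 6 → Val Q) :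
    newFn p S s j (some (c, .Cv)) i y = y (cv6 i) := rfl
theorem newFn_Lat (s : Gen) (j : ℤ) (c : Color) (k : Fin 6) (i : Fin 3) (y : Fin 6 → Val Q) :
    newFn p S s j (some (c, .Lat k)) i y = y 0 := rfl
theorem newFn_LatV (s : Gen) (j : ℤ) (c : Color) (i : Fin 3) (y : Fin 6 → Val Q) :
    newFn p S s j (some (c, .LatV)) i y = y 0 := rfl
theorem newFn_Code (s s' : Gen) (j : ℤ) (c : Color) (i : Fin 3) (y : Fin 6 → Val Q) :
    newFn p S s j (some (c, .Code s')) i y =
      codeOf (fun v => S.kd s' (j / C) (trk p j) v) (y 0) := rfl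
theorem newFn_Cand (s s' : Gen) (k' : Fin 3) (j : ℤ) (c : Color) (i : Fin 3)
    (y : Fin 6 → Val Q) :
    newFn p S s j (some (c, .Cand s' k')) i y = S.fn s' (j / C) (trk p j) k' y := rfl
theorem newFn_Out (s s' : Gen) (j : ℤ) (c : Color) (i : Fin 3) (y : Fin 6 → Val Q) :
    newFn p S s j (some (c, .Out s')) i y = runCode (y 0) (y 1) (fun k => y (cand6 k)) := rfl

theorem newSrc_St (c : Color) (e : Fin 6) :
    newSrc (some (c, .St)) e = (1, some (act (gi (gen6 e)) c, .Out (gen6 e))) := rfl
theorem newSrc_Cv0 (c : Color) : newSrc (some (c, .Cv)) (cv6 0) = (2, some (c, .Cv)) := rfl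
theorem newSrc_Cv1 (c : Color) : newSrc (some (c, .Cv)) (cv6 1) = (0, some (c, .Cv)) := rfl
theorem newSrc_Cv2 (c : Color) : newSrc (some (c, .Cv)) (cv6 2) = (1, some (c, .St)) := rfl
theorem newSrc_Lat (c : Color) (k : Fin 6) (e : Fin 6) :
    newSrc (some (c, .Lat k)) e = (1, some (c, .Cv)) := rfl
theorem newSrc_LatV (c : Color) (e : Fin 6) :
    newSrc (some (c, .LatV)) e = (1, some (c, .Cv)) := rfl
theorem newSrc_Code (c : Color) (s : Gen) (e : Fin 6) :
    newSrc (some (c, .Code s)) e = (1, some (c, .LatV)) := rfl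
theorem newSrc_Cand (c : Color) (s : Gen) (k : Fin 3) (e : Fin 6) :
    newSrc (some (c, .Cand s k)) e = (1, some (c, .Lat e)) := rfl
theorem newSrc_Out0 (c : Color) (s : Gen) :
    newSrc (some (c, .Out s)) 0 = (1, some (c, .Code s)) := rfl
theorem newSrc_Out1 (c : Color) (s : Gen) :
    newSrc (some (c, .Out s)) 1 = (1, some (c, .St)) := rfl
theorem newSrc_Out2 (c : Color) (s : Gen) (k : Fin 3) :
    newSrc (some (c, .Out s)) (cand6 k) = (1, some (c, .Cand s k)) := by
  fin_cases k <;> rfl

theorem content_Lat (k : Fin 6) (j : ℤ) (g : H) :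
    content p S (.Lat k) j g = itm p S (spos p S j k) g := rfl
theorem content_LatV (j : ℤ) (g : H) :
    content p S .LatV j g = itm p S (vpos p j) g := rfl
theorem content_Code (s : Gen) (j : ℤ) (g : H) :
    content p S (.Code s) j g = some (Sum.inr (S.kd s (j / C) (trk p j) (red Q g))) := rfl
theorem content_Cand (s : Gen) (k : Fin 3) (j : ℤ) (g : H) :
    content p S (.Cand s k) j g =
      S.fn s (j / C) (trk p j) k (fun e => itm p S (spos p S j e) g) := rfl
theorem content_Out (s : Gen) (j : ℤ) (g : H) :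
    content p S (.Out s) j g = itm p S j (act s g) := rfl

theorem thr_Lat (k : Fin 6) (j : ℤ) :
    thr p S (.Lat k) j = 2 * (2 * C) + 2 - (spos p S j k - j) := rfl
theorem thr_LatV (j : ℤ) :
    thr p S .LatV j = 2 * (2 * C) + 2 - (vpos p j - j) := rfl
theorem thr_Code (s : Gen) (j : ℤ) : thr p S (.Code s) j = 3 * (2 * C) + 3 := rfl
theorem thr_Cand (s : Gen) (k : Fin 3) (j : ℤ) :
    thr p S (.Cand s k) j = 3 * (2 * C) + 3 := rfl
theorem thr_Out (s : Gen) (j : ℤ) : thr p S (.Out s) j = 3 * (2 * C) + 4 := rfl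

theorem up_reg (hQ : (Q : ℤ) = 17 * (nn C * nn C)) (s : Gen) (j : ℤ) (c : Color) (r : Role)
    (h : H) :
    newReg p S r c j (act s h) = upd (newKd p S s j (some (c, r)) (red Q h))
      (newFn p S s j (some (c, r))) (newReg p S r c j h)
      (fun e => newD p S (j + off (newSrc (some (c, r)) e).1) (newSrc (some (c, r)) e).2 h) := by
  rw [newKd_eq p S hQ]
  have hC := C_pos p
  rcases r with _ | _ | k | _ | s' | ⟨s', k'⟩ | s'
  · -- St
    apply st_up (nn_pos C) (MM_nonneg C) (nn_MM C) c s h
    intro g ⟨t, ht1, ht2⟩ hall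
    rw [newFn_St]
    apply anySome_eq
    · intro e
      rw [newSrc_St, newD_mid]
      rcases ho : tile (nn C) (act (gi (gen6 e)) c) h with _ | g'
      · left
        exact reg_none p S _ _ _ _ ho
      · rw [reg_Out p S _ _ _ _ _ ho]
        split_ifs
        · right
          rw [hall _ _ ho, act_gi]
        · left; rfl
    · obtain ⟨e, he⟩ := gen6_surj t
      refine ⟨e, ?_⟩
      rw [newSrc_St, newD_mid, he, reg_Out p S _ _ _ _ _ ht1, ht2, if_pos, act_gi]
      rw [thr_Out]
      unfold MM
      linarith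
  · -- Cv
    apply cv_up (nn_pos C) (MM_nonneg C) (nn_MM C) c s h (2 * C) (by positivity)
      (fun g k => itm p S (j + k) g)
    · intro g hg
      rw [newFn_Cv, newSrc_Cv2, newD_mid, reg_St p S c j h g hg, add_zero]
    · intro g hg h1
      rw [newFn_Cv, newSrc_Cv0, off_two, newD_some, reg_Cv p S c _ h g hg, if_neg (by omega)]
      congr 1
      ring
    · intro g hg h1
      rw [newFn_Cv, newSrc_Cv1, off_zero, newD_some, reg_Cv p S c _ h g hg, if_neg (by omega)]
      congr 1
      ring
  · -- Lat
    apply once_up (nn_pos C) (MM_nonneg C) (nn_MM C) c s h _ (thr_two p S (.Lat k) j)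
      (content p S (.Lat k) j)
    intro g hg ht
    rw [thr_Lat] at ht
    have hb := spos_bd p S j k
    rw [newFn_Lat, newSrc_Lat, content_Lat, newD_mid,
      latch_read p S c j h g (spos p S j k - j) hb.1 hb.2 hg ht,
      show j + (spos p S j k - j) = spos p S j k by ring]
  · -- LatV
    apply once_up (nn_pos C) (MM_nonneg C) (nn_MM C) c s h _ (thr_two p S .LatV j)
      (content p S .LatV j)
    intro g hg ht
    rw [thr_LatV] at ht
    have hb := vpos_bd p j
    rw [newFn_LatV, newSrc_LatV, content_LatV, newD_mid,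
      latch_read p S c j h g (vpos p j - j) hb.1 hb.2 hg ht,
      show j + (vpos p j - j) = vpos p j by ring]
  · -- Code
    apply once_up (nn_pos C) (MM_nonneg C) (nn_MM C) c s h _ (thr_two p S (.Code s') j)
      (content p S (.Code s') j)
    intro g hg ht
    rw [thr_Code] at ht
    have hb := vpos_bd p j
    rw [newFn_Code, newSrc_Code, content_Code, newD_mid, reg_LatV p S c j h g hg, itm_vpos]
    · rfl
    · rw [thr_LatV]
      linarith
  · -- Cand
    apply once_up (nn_pos C) (MM_nonneg C) (nn_MM C) c s h _ (thr_two p S (.Cand s' k') j)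
      (content p S (.Cand s' k') j)
    intro g hg ht
    rw [thr_Cand] at ht
    rw [newFn_Cand, content_Cand]
    refine congrArg (S.fn s' (j / C) (trk p j) k') (funext fun e => ?_)
    have hb := spos_bd p S j e
    rw [newSrc_Cand, newD_mid, reg_Lat p S e c j h g hg]
    rw [thr_Lat]
    linarith
  · -- Out
    apply once_up (nn_pos C) (MM_nonneg C) (nn_MM C) c s h _ (thr_two p S (.Out s') j)
      (content p S (.Out s') j)
    intro g hg ht
    rw [thr_Out] at ht
    rw [newFn_Out, newSrc_Out0, newSrc_Out1, content_Out, ← out_run p S s' j g, newD_mid,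
      newD_mid, reg_St p S c j h g hg, reg_Code p S s' c j h g hg, content_Code]
    · refine congrArg (runCode _ _) (funext fun k => ?_)
      rw [newSrc_Out2, newD_mid, reg_Cand p S s' k c j h g hg, content_Cand]
      rw [thr_Cand]
      linarith
    · rw [thr_Code]
      linarith

/-- The simulating system. -/
noncomputable def nextSys (hQ : (Q : ℤ) = 17 * (nn C * nn C)) : Sys Q where
  D := newD p S
  kd := newKd p S
  src _ := newSrc
  fn := newFn p S
  ph _ _ := rfl
  up s j t h := by
    rcases t with _ | ⟨c, r⟩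
    · simp [upd, newD, newKd, newFn, newSrc, movePh, red_act]
    · exact up_reg p S hQ s j c r h

end

end Pool.Agent.W718.OneD
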