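import Mathlib
import Pool.Agent.W718.OneD.Up

namespace Pool.Agent.W718.OneD

set_option linter.unusedSectionVars false
set_option linter.unusedSimpArgs false
set_option linter.unusedVariables false

/-- The central translation by `j` changes some register. -/
def Sep {Q : ℕ} (S : Sys Q) (j : ℤ) : Prop :=
  ∃ i t, ∃ g : H, S.D i t (g.1, g.2.1, g.2.2 + j) ≠ S.D i t g

theorem sep_phase {Q : ℕ} (S : Sys Q) (j : ℤ) (hd : ¬ (Q : ℤ) ∣ j) : Sep S j := by
  refine ⟨0, none, (0, 0, 0), ?_⟩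
  rw [S.ph, S.ph]
  intro hc
  have h1 : red Q ((0 : ℤ), (0 : ℤ), (0 : ℤ) + j) = red Q ((0 : ℤ), (0 : ℤ), (0 : ℤ)) :=
    Sum.inl.inj (Option.some.inj hc)
  rw [red_eq] at h1
  apply hd
  have := h1.2.2
  simpa using this

section
variable {Q C : ℕ} (p : Trk ≃ Fin C) (S : Sys Q)

theorem sep_next (hQ : (Q : ℤ) = 17 * (nn C * nn C)) (J : ℤ)
    (hS : ∀ j, 0 < j → j < J → Sep S j) (j : ℤ) (h0 : 0 < j) (h1 : j < nn C * nn C * J) :
    Sep (nextSys p S hQ) j := by
  by_cases hd : (Q : ℤ) ∣ j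
  · rw [hQ] at hd
    obtain ⟨k, rfl⟩ := hd
    have hn := nn_pos C
    have hnn : 0 < nn C * nn C := by positivity
    have hk : 0 < k := by
      by_contra hc
      push Not at hc
      nlinarith
    have hj : 17 * k < J := by
      by_contra hc
      push Not at hc
      nlinarith
    obtain ⟨i, t, g, hg⟩ := hS (17 * k) (by linarith) hj
    obtain ⟨a, b, c⟩ := g
    refine ⟨pos p i t, some (red 17 (a, b, c), .St),
      (nn C * a, nn C * b, nn C * nn C * c), ?_⟩
    have e1 : tile (nn C) (red 17 (a, b, c)) (nn C * a, nn C * b, nn C * nn C * c) =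
        some (a, b, c) := by
      rw [tile_eq_some hn]
      refine ⟨rfl, ?_⟩
      unfold NN rel
      simp
      exact hn.ne'
    have e2 : tile (nn C) (red 17 (a, b, c)) (nn C * a, nn C * b,
        nn C * nn C * c + 17 * (nn C * nn C) * k) = some (a, b, c + 17 * k) := by
      rw [tile_eq_some hn]
      refine ⟨?_, ?_⟩
      · symm
        rw [red_eq]
        simp
      · unfold NN rel
        have : nn C * nn C * c + 17 * (nn C * nn C) * k - nn C * nn C * (c + 17 * k) = 0 := by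
          ring
        simp [this]
        exact hn.ne'
    show newReg p S .St _ _ _ ≠ newReg p S .St _ _ _
    rw [reg_St p S _ _ _ _ e1, reg_St p S _ _ _ _ e2]
    unfold itm
    rw [cel_pos, trk_pos]
    exact hg
  · exact sep_phase _ _ hd

end

theorem exists_sys : ∃ (Q : ℕ) (_ : NeZero Q), ∀ c : ℤ, 0 < c → ∃ S : Sys Q, Sep S c := by
  obtain ⟨C, ⟨p⟩⟩ : ∃ C, Nonempty (Trk ≃ Fin C) := Finite.exists_equiv_fin Trk
  obtain ⟨Q, hQ⟩ : ∃ Q : ℕ, (Q : ℤ) = 17 * (nn C * nn C) :=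
    ⟨17 * ((96 * C + 104) * (96 * C + 104)), by unfold nn; push_cast; ring⟩
  have hn := nn_pos C
  have hQ0 : Q ≠ 0 := by
    rintro rfl
    simp at hQ
    omega
  refine ⟨Q, ⟨hQ0⟩, ?_⟩
  have key : ∀ k : ℕ, ∃ S : Sys Q, ∀ j : ℤ, 0 < j → j < 2 ^ k → Sep S j := by
    intro k
    induction k with
    | zero => exact ⟨Sys.triv Q, fun j h1 h2 => by simp at h2; omega⟩
    | succ k ih =>
      obtain ⟨S, hS⟩ := ih
      refine ⟨nextSys p S hQ, fun j h1 h2 => sep_next p S hQ (2 ^ k) hS j h1 ?_⟩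
      have h3 : (2 : ℤ) ≤ nn C * nn C := by
        have : 104 ≤ nn C := by unfold nn; omega
        nlinarith
      have h4 : (2 : ℤ) * 2 ^ k ≤ nn C * nn C * 2 ^ k :=
        mul_le_mul_of_nonneg_right h3 (by positivity)
      rw [pow_succ] at h2
      linarith
  intro c hc
  obtain ⟨S, hS⟩ := key c.toNat
  refine ⟨S, hS c hc ?_⟩
  have : (c.toNat : ℤ) < 2 ^ c.toNat := by exact_mod_cast Nat.lt_two_pow_self
  omega

end Pool.Agent.W718.OneD
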