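import Mathlib
import Pool.Agent.W718.OneD.Sep
import Pool.Agent.W718.OneD.Fam

namespace Pool.Agent.W718.OneD

set_option linter.unusedSectionVars false
set_option linter.unusedSimpArgs false
set_option linter.unusedVariables false

/-- Letters: the registers of a cell together with its rules. -/
def Letter (Q : ℕ) : Type := (Trk → Val Q) × ((Gen → Trk → Ph Q → Kd) ×
  (Trk → Fin 6 → Fin 3 × Trk) × (Gen → Trk → Fin 3 → (Fin 6 → Val Q) → Val Q))

instance (Q : ℕ) [NeZero Q] : Finite (Letter Q) := by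
  unfold Letter
  have h1 : Finite (ZMod Q) := Finite.of_fintype _
  have h2 : Finite (Ph Q) := inferInstance
  have h3 : Finite (Val Q) := inferInstance
  have h4 : Finite Trk := inferInstance
  have h5 : Finite (Trk → Val Q) := inferInstance
  have h6 : Finite (Gen → Trk → Ph Q → Kd) := inferInstance
  have h7 : Finite (Trk → Fin 6 → Fin 3 × Trk) := inferInstance
  have h8 : Finite ((Fin 6 → Val Q) → Val Q) := inferInstance
  have h9 : Finite (Gen → Trk → Fin 3 → (Fin 6 → Val Q) → Val Q) := inferInstance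
  infer_instance

def phOf {Q : ℕ} (x : Val Q) : Ph Q :=
  match x with
  | some (Sum.inl v) => v
  | _ => 0

/-- The local rule. -/
def loc {Q : ℕ} (s : Gen) (w : Fin 3 → Letter Q) : Letter Q :=
  (fun t => upd ((w 1).2.1 s t (phOf ((w 1).1 none))) ((w 1).2.2.2 s t) ((w 1).1 t)
    (fun e => (w ((w 1).2.2.1 t e).1).1 ((w 1).2.2.1 t e).2), (w 1).2)

section
variable {Q k : ℕ} (enc : Letter Q ≃ Fin k)

def FF (s : Gen) (ω : ℤ → Fin k) : ℤ → Fin k :=
  fun i => enc (loc s (fun o => enc.symm (ω (i + off o))))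

theorem FF_cont (s : Gen) : Continuous (FF enc s) := by
  refine continuous_pi fun i => ?_
  have h1 : Continuous (fun w : Fin 3 → Fin k => enc (loc s (fun o => enc.symm (w o)))) :=
    continuous_of_discreteTopology
  exact h1.comp (continuous_pi fun o => continuous_apply (i + off o))

theorem FF_shf (s : Gen) (ω : ℤ → Fin k) : FF enc s (shf ω) = shf (FF enc s ω) := by
  funext i
  unfold FF shf
  congr 2
  funext o
  rw [show i + off o + 1 = i + 1 + off o by ring]

def ptS (S : Sys Q) (g : ℤ × ℤ × ℤ) : ℤ → Fin k := fun i =>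
  enc ((fun t => S.D i t g), (fun s t => S.kd s i t), S.src i, fun s t => S.fn s i t)

theorem FF_ptS (S : Sys Q) (s : Gen) (g : ℤ × ℤ × ℤ) :
    FF enc s (ptS enc S g) = ptS enc S (act s g) := by
  funext i
  unfold FF ptS loc
  simp only [Equiv.symm_apply_apply, off_one, add_zero]
  congr 1
  refine Prod.ext (funext fun t => ?_) rfl
  simp only
  rw [S.up, S.ph]
  rfl

end

section
variable {k : ℕ}

/-- Forgetting the bound on the letters. -/
def toN (ω : ℤ → Fin k) : ℤ → ℕ := fun n => (ω n : ℕ)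

theorem toN_inj : Function.Injective (toN (k := k)) := by
  intro a b h
  funext n
  exact Fin.ext (congrFun h n)

theorem toN_cont : Continuous (toN (k := k)) :=
  continuous_pi fun n => (continuous_of_discreteTopology : Continuous (fun a : Fin k =>
    (a : ℕ))).comp (continuous_apply n)

theorem toN_emb : Topology.IsClosedEmbedding (toN (k := k)) :=
  toN_cont.isClosedEmbedding toN_inj

/-- Transport of homeomorphisms. -/
def conjE {A B : Type*} [TopologicalSpace A] [TopologicalSpace B] (e : A ≃ₜ B) (f : A ≃ₜ A) :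
    Equiv.Perm B := (e.toEquiv.symm.trans f.toEquiv).trans e.toEquiv

theorem conjE_apply {A B : Type*} [TopologicalSpace A] [TopologicalSpace B] (e : A ≃ₜ B)
    (f : A ≃ₜ A) (x : B) : conjE e f x = e (f (e.symm x)) := rfl

theorem transfer {F : Gen → (ℤ → Fin k) → (ℤ → Fin k)}
    (hF : ∀ s, Continuous (F s)) (hs : ∀ s ω, F s (shf ω) = shf (F s ω))
    (hne : (YY F).Nonempty) (hinj : Function.Injective (hom hF hs)) :
    ∃ (k : ℕ) (X : Set (ℤ → ℕ)), X.Nonempty ∧ IsClosed X ∧ (∀ x ∈ X, ∀ n : ℤ, x n < k) ∧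
      (∀ x : ℤ → ℕ, x ∈ X ↔ (fun n : ℤ => x (n + 1)) ∈ X) ∧
      ∃ ρ : ℤ × ℤ × ℤ → Equiv.Perm X, Function.Injective ρ ∧
        (∀ a b c a' b' c' : ℤ,
          ρ (a + a', b + b', c + c' + a * b') = ρ (a, b, c) * ρ (a', b', c')) ∧
        (∀ g : ℤ × ℤ × ℤ, Continuous (ρ g)) ∧
        (∀ g : ℤ × ℤ × ℤ, ∀ p q : X,
          ((q : ℤ → ℕ) = fun n : ℤ => (p : ℤ → ℕ) (n + 1)) →
            (((ρ g q : X) : ℤ → ℕ) = fun n : ℤ => ((ρ g p : X) : ℤ → ℕ) (n + 1))) := by
  let e : YY F ≃ₜ (toN '' (YY F) : Set (ℤ → ℕ)) := toN_emb.isEmbedding.homeomorphImage (YY F)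
  have he : ∀ ω : YY F, (e ω : ℤ → ℕ) = toN ω.1 := fun ω => rfl
  have hes : ∀ x : (toN '' (YY F) : Set (ℤ → ℕ)), toN (e.symm x).1 = (x : ℤ → ℕ) := by
    intro x
    rw [← he, e.apply_symm_apply]
  refine ⟨k, toN '' (YY F), hne.image _, toN_emb.isClosedMap _ (isClosed_YY hF), ?_, ?_,
    fun g => conjE e (hom hF hs (Distort.mk g.1 g.2.1 g.2.2)).1, ?_, ?_, ?_, ?_⟩
  · rintro x ⟨ω, -, rfl⟩ n
    exact (ω n).2
  · intro x
    constructor
    · rintro ⟨ω, hω, rfl⟩
      exact ⟨shf ω, YY_shf hs hω, rfl⟩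
    · rintro ⟨ω, hω, h⟩
      refine ⟨shb ω, YY_shb hs hω, ?_⟩
      funext n
      have := congrFun h (n - 1)
      simp only [sub_add_cancel] at this
      exact this
  · intro g g' hg
    have h1 : (hom hF hs (Distort.mk g.1 g.2.1 g.2.2)) =
        (hom hF hs (Distort.mk g'.1 g'.2.1 g'.2.2)) := by
      apply Subtype.ext
      apply Homeomorph.ext
      intro ω
      have h2 := congrArg (fun f : Equiv.Perm _ => f (e ω)) hg
      simp only [conjE_apply, e.symm_apply_apply] at h2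
      exact e.injective h2
    have h3 := hinj h1
    have ha : g.1 = g'.1 := by
      have := congrArg (fun m : Heis.Heisenberg => m.1 0 1) h3
      exact this
    have hb : g.2.1 = g'.2.1 := by
      have := congrArg (fun m : Heis.Heisenberg => m.1 1 2) h3
      exact this
    have hc : g.2.2 = g'.2.2 := by
      have := congrArg (fun m : Heis.Heisenberg => m.1 0 2) h3
      exact this
    exact Prod.ext ha (Prod.ext hb hc)
  · intro a b c a' b' c'
    simp only
    rw [← Distort.mk_mul, map_mul]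
    apply Equiv.ext
    intro x
    rw [Equiv.Perm.mul_apply, conjE_apply, conjE_apply, conjE_apply, e.symm_apply_apply]
    rfl
  · intro g
    exact e.continuous.comp ((hom hF hs (Distort.mk g.1 g.2.1 g.2.2)).1.continuous.comp
      e.symm.continuous)
  · intro g p q hpq
    have hm := (hom hF hs (Distort.mk g.1 g.2.1 g.2.2)).2
    rw [Subgroup.mem_centralizer_iff] at hm
    have h1 := hm (shY hs) rfl
    have h2 : e.symm q = shY hs (e.symm p) := by
      apply Subtype.ext
      apply toN_inj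
      rw [hes, hpq]
      funext n
      exact (congrFun (hes p) (n + 1)).symm
    have h3 : (hom hF hs (Distort.mk g.1 g.2.1 g.2.2)).1 (shY hs (e.symm p)) =
        shY hs ((hom hF hs (Distort.mk g.1 g.2.1 g.2.2)).1 (e.symm p)) :=
      (congrArg (fun φ : YY F ≃ₜ YY F => φ (e.symm p)) h1).symm
    rw [conjE_apply, conjE_apply, h2, h3]
    rfl

end

theorem heis_one_dim :
    ∃ (k : ℕ) (X : Set (ℤ → ℕ)), X.Nonempty ∧ IsClosed X ∧ (∀ x ∈ X, ∀ n : ℤ, x n < k) ∧
      (∀ x : ℤ → ℕ, x ∈ X ↔ (fun n : ℤ => x (n + 1)) ∈ X) ∧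
      ∃ ρ : ℤ × ℤ × ℤ → Equiv.Perm X, Function.Injective ρ ∧
        (∀ a b c a' b' c' : ℤ,
          ρ (a + a', b + b', c + c' + a * b') = ρ (a, b, c) * ρ (a', b', c')) ∧
        (∀ g : ℤ × ℤ × ℤ, Continuous (ρ g)) ∧
        (∀ g : ℤ × ℤ × ℤ, ∀ p q : X,
          ((q : ℤ → ℕ) = fun n : ℤ => (p : ℤ → ℕ) (n + 1)) →
            (((ρ g q : X) : ℤ → ℕ) = fun n : ℤ => ((ρ g p : X) : ℤ → ℕ) (n + 1))) := by
  obtain ⟨Q, hQ, hsep⟩ := exists_sys
  obtain ⟨k, ⟨enc⟩⟩ := Finite.exists_equiv_fin (Letter Q)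
  refine transfer (F := FF enc) (FF_cont enc) (FF_shf enc)
    ⟨_, pt_mem (ptS enc) (FF_ptS enc) (Sys.triv Q) (0, 0, 0)⟩ ?_
  apply hom_inj (FF_cont enc) (FF_shf enc) (ptS enc) (FF_ptS enc)
  intro c hc
  obtain ⟨S, i, t, g, hg⟩ := hsep c hc
  refine ⟨S, g, fun h => hg ?_⟩
  have h1 := enc.injective (congrFun h i)
  exact congrFun (congrArg Prod.fst h1) t

end Pool.Agent.W718.OneD
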